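import Pool.Agent.H37.Mart.Final

set_option autoImplicit false

/-!
`R(3, G) ≤ k + 40000 m / log (m / k)` for every graph with `k` vertices and `m > k` edges. In
particular Sidorenko's conjecture `R(3, G) ≤ k + m` holds when `m ≥ exp 40000 * k`.

Proof. Let `T` be triangle-free on `N = k + n'` vertices with maximum degree `D < k`, and let `I` be
a neighbourhood with `D` vertices. Vertices of `G` of degree at most `n' / D` are removed (they can
be placed last, greedily). In the remaining part `A` the few vertices of large degree are placed
at random in `I`, one after the other. The others are placed one after the other at random outside
`I`, each with its own weight on the positions; the weight of a vertex is updated after each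
placement of a neighbour so that forbidden positions get weight zero and all weights are martingales
(until they are stopped). Triangle-freeness makes the expected energies non-increasing, and a second
moment potential shows that almost all vertices get a position and almost all vertices keep many
allowed positions in a reserved part `R` of `I`. The exceptional vertices are then placed in `R`,
after the removal of few placed neighbours.
-/

namespace Pool.Agent.Results.MP_c6effb_co.LogBound

/-- Every graph `G` with `k` vertices and `m > k` edges satisfies
`R(3, G) ≤ k + 40000 m / log (m / k)` (rounded up to the next integer `N`). -/
theorem result : ∀ (V : Type) [Fintype V] (G : SimpleGraph V) (N : ℕ),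
    Fintype.card V < G.edgeSet.ncard →
    (Fintype.card V : ℝ) + 40000 * (G.edgeSet.ncard : ℝ) /
      Real.log ((G.edgeSet.ncard : ℝ) / (Fintype.card V : ℝ)) ≤ (N : ℝ) →
      ∀ H : SimpleGraph (Fin N), ¬ H.CliqueFree 3 ∨ ∃ f : G →g Hᶜ, Function.Injective f :=
  fun V _ G N hkm hN H => Pool.Agent.H37.Mart.ramsey_log V G N hkm hN H

end Pool.Agent.Results.MP_c6effb_co.LogBound
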